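import Pool.Agent.W626.AH.Stm

/-!
# Part AH-FG: data on the free group and on the quotient
-/

set_option autoImplicit false

namespace Pool.Agent.W63.AH.FG

open Pool.Agent.W626.AH Pool.Agent.H67R3.RHDefs

variable {n : ℕ}

/-- the map on quadruples induced by a homomorphism -/
def pm (N : Subgroup (FreeGroup (Fin n))) (p : FreeGroup (Fin n) × FreeGroup (Fin n) × ℝ × ℝ) :
    (FreeGroup (Fin n) ⧸ N) × (FreeGroup (Fin n) ⧸ N) × ℝ × ℝ :=
  (QuotientGroup.mk p.1, QuotientGroup.mk p.2.1, p.2.2.1, p.2.2.2)

theorem list_le {ℓ : FreeGroup (Fin n) → ℝ} (h1 : ℓ 1 = 0) (hi : ∀ w, ℓ w⁻¹ = ℓ w)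
    (hm : ∀ u v, ℓ (u * v) ≤ ℓ u + ℓ v) (hg : ∀ i, ℓ (FreeGroup.of i) ≤ 1) :
    ∀ L : List (Fin n × Bool), ℓ (FreeGroup.mk L) ≤ L.length
  | [] => by
      have : (FreeGroup.mk [] : FreeGroup (Fin n)) = 1 := rfl
      rw [this, h1]; simp
  | (i, b) :: L => by
      have e : (FreeGroup.mk ((i, b) :: L) : FreeGroup (Fin n))
          = FreeGroup.mk [(i, b)] * FreeGroup.mk L := by
        rw [FreeGroup.mul_mk]; rfl
      have h := list_le h1 hi hm hg L
      have h2 : ℓ (FreeGroup.mk [(i, b)]) ≤ 1 := by
        cases b with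
        | true => exact hg i
        | false =>
          have : (FreeGroup.mk [(i, false)] : FreeGroup (Fin n)) = (FreeGroup.of i)⁻¹ := rfl
          rw [this, hi]; exact hg i
      rw [e]
      refine le_trans (hm _ _) ?_
      rw [List.length_cons]
      push_cast
      linarith

theorem main : S_fg := by
  classical
  intro n N R M q B
  have hN : N.1.Normal := N.2
  constructor
  · rintro ⟨ℓ, g, H, hnn, hgen⟩
    refine ⟨fun w => ℓ (QuotientGroup.mk w), g.out, ?_, ?_⟩
    · intro w
      refine ⟨hnn _, ?_⟩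
      have := list_le (ℓ := fun w => ℓ (QuotientGroup.mk w)) (n := n) H.one
        (fun w => H.inv (QuotientGroup.mk w))
        (fun u v => H.mul (QuotientGroup.mk u) (QuotientGroup.mk v)) hgen w.toWord
      rw [FreeGroup.mk_toWord] at this
      exact this
    · refine ⟨?_, fun w => H.inv (QuotientGroup.mk w),
        fun u v => H.mul (QuotientGroup.mk u) (QuotientGroup.mk v),
        fun x y z w => H.hyp (QuotientGroup.mk x) (QuotientGroup.mk y) (QuotientGroup.mk z)
          (QuotientGroup.mk w), ?_, ?_⟩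
      · intro w hw
        have : (QuotientGroup.mk w : FreeGroup (Fin n) ⧸ N.1) = 1 :=
          (QuotientGroup.eq_one_iff w).2 hw
        show ℓ (QuotientGroup.mk w) = 0
        rw [this]; exact H.one
      · intro p p' hp hp' hR T hT hdis
        have hinj : Set.InjOn (fun a : FreeGroup (Fin n) => (QuotientGroup.mk a :
            FreeGroup (Fin n) ⧸ N.1)) T := by
          intro a ha b hb hab
          by_contra hne
          exact hdis a ha b hb hne (QuotientGroup.eq.1 hab)
        have hcard : (T.image (fun a : FreeGroup (Fin n) => (QuotientGroup.mk a :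
            FreeGroup (Fin n) ⧸ N.1))).card = T.card := Finset.card_image_of_injOn hinj
        obtain ⟨a', ha', h⟩ := H.acy (pm N.1 p) (pm N.1 p') hp hp' hR
          (T.image (fun a : FreeGroup (Fin n) => (QuotientGroup.mk a :
            FreeGroup (Fin n) ⧸ N.1))) (by rw [hcard]; exact hT)
        obtain ⟨a, ha, rfl⟩ := Finset.mem_image.1 ha'
        exact ⟨a, ha, h⟩
      · intro k
        have h := H.lox k
        show (k : ℝ) ≤ (q + 1) * (ℓ ((QuotientGroup.mk (g.out ^ k))) + B)
        have e : (QuotientGroup.mk (g.out ^ k) : FreeGroup (Fin n) ⧸ N.1) = g ^ k := by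
          rw [QuotientGroup.mk_pow, QuotientGroup.out_eq']
        rw [e]; exact h
  · rintro ⟨ℓ, g, hbox, H⟩
    have hinv : ∀ u v, v ∈ N.1 → ℓ (u * v) = ℓ u := by
      intro u v hv
      apply le_antisymm
      · have := H.mul u v
        rw [H.ker v hv, add_zero] at this
        exact this
      · have := H.mul (u * v) v⁻¹
        rw [H.ker _ (N.1.inv_mem hv), add_zero, mul_inv_cancel_right] at this
        exact this
    set L : FreeGroup (Fin n) ⧸ N.1 → ℝ := fun h => ℓ h.out with hL
    have hLm : ∀ w : FreeGroup (Fin n), L (QuotientGroup.mk w) = ℓ w := by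
      intro w
      obtain ⟨h, hh⟩ := QuotientGroup.mk_out_eq_mul N.1 w
      rw [hL]
      show ℓ ((QuotientGroup.mk w : FreeGroup (Fin n) ⧸ N.1).out) = ℓ w
      rw [hh]
      exact hinv _ _ h.2
    have hnd : ∀ u v : FreeGroup (Fin n), nd L (QuotientGroup.mk u) (QuotientGroup.mk v)
        = nd ℓ u v := fun u v => hLm (u⁻¹ * v)
    have hvd : ∀ p p' : FreeGroup (Fin n) × FreeGroup (Fin n) × ℝ × ℝ,
        vd (nd L) (pm N.1 p) (pm N.1 p') = vd (nd ℓ) p p' := by
      intro p p'
      simp only [vd, pm, hnd]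
    have hVP : ∀ p : FreeGroup (Fin n) × FreeGroup (Fin n) × ℝ × ℝ,
        VP (nd L) (pm N.1 p) ↔ VP (nd ℓ) p := by
      intro p
      simp only [VP, pm, hnd]
    have hlift : ∀ p : (FreeGroup (Fin n) ⧸ N.1) × (FreeGroup (Fin n) ⧸ N.1) × ℝ × ℝ,
        pm N.1 (p.1.out, p.2.1.out, p.2.2.1, p.2.2.2) = p := by
      intro p
      simp only [pm, QuotientGroup.out_eq']
    refine ⟨L, QuotientGroup.mk g, ⟨?_, ?_, ?_, ?_, ?_, ?_⟩, fun h => (hbox _).1, ?_⟩
    · have := hLm 1
      rw [H.ker 1 N.1.one_mem] at this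
      exact this
    · intro w
      obtain ⟨w, rfl⟩ := QuotientGroup.mk_surjective w
      rw [← QuotientGroup.mk_inv, hLm, hLm, H.inv]
    · intro u v
      obtain ⟨u, rfl⟩ := QuotientGroup.mk_surjective u
      obtain ⟨v, rfl⟩ := QuotientGroup.mk_surjective v
      rw [← QuotientGroup.mk_mul, hLm, hLm, hLm]
      exact H.mul _ _
    · intro x y z w
      obtain ⟨x, rfl⟩ := QuotientGroup.mk_surjective x
      obtain ⟨y, rfl⟩ := QuotientGroup.mk_surjective y
      obtain ⟨z, rfl⟩ := QuotientGroup.mk_surjective z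
      obtain ⟨w, rfl⟩ := QuotientGroup.mk_surjective w
      simp only [hnd]
      exact H.hyp _ _ _ _
    · intro p p' hp hp' hR T hT
      rw [← hlift p] at hp hR ⊢
      rw [← hlift p'] at hp' hR ⊢
      rw [hVP] at hp hp'
      rw [hvd] at hR
      have hinj : Function.Injective (fun a : FreeGroup (Fin n) ⧸ N.1 => a.out) := by
        intro a b hab
        have := congrArg (fun w : FreeGroup (Fin n) => (QuotientGroup.mk w :
          FreeGroup (Fin n) ⧸ N.1)) hab
        simpa using this
      obtain ⟨a', ha', h⟩ := H.acy _ _ hp hp' hR (T.image fun a => a.out)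
        (by rw [Finset.card_image_of_injective _ hinj]; exact hT) (by
          intro a' ha' b' hb' hne hmem
          obtain ⟨a, ha, rfl⟩ := Finset.mem_image.1 ha'
          obtain ⟨b, hb, rfl⟩ := Finset.mem_image.1 hb'
          apply hne
          have := QuotientGroup.eq.2 hmem
          rw [QuotientGroup.out_eq', QuotientGroup.out_eq'] at this
          rw [this])
      obtain ⟨a, ha, rfl⟩ := Finset.mem_image.1 ha'
      refine ⟨a, ha, ?_⟩
      have hmv : ∀ P : FreeGroup (Fin n) × FreeGroup (Fin n) × ℝ × ℝ,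
          mv a (pm N.1 P) = pm N.1 (mv a.out P) := by
        intro P
        simp only [mv, pm, QuotientGroup.mk_mul, QuotientGroup.out_eq']
      rw [hmv, hmv, hvd, hvd]
      exact h
    · intro k
      rw [← QuotientGroup.mk_pow, hLm]
      exact H.lox k
    · intro i
      rw [hLm]
      have := (hbox (FreeGroup.of i)).2
      rw [FreeGroup.norm_of] at this
      simpa using this

end Pool.Agent.W63.AH.FG
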